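import Pool.Agent.Q204.LP.Hyp

/-!
# Local approximation from one PEPS of constant energy precision at one size

Let `h` be a Hermitian interaction on a box, `Δ > 0`, `Reg ⊂ ℤ²` a finite region.

(A) One torus. Suppose `H_m` has a unique ground state `Ψ` with gap `Δ`, and let `X` be ANY locally
purified mixed state of bond dimension `D₀` on the `m`-torus (tensors depending on the site) with
fidelity at least `η` with `Ψ`, or with energy at most `E₀ + Δ (1 - η)`. If `m ≥ r / ε`, there is ONE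
translation invariant tensor of bond dimension at most `D₀⁴ (m / η)^C` whose PEPS vector on every
torus of side `L ≥ m⁵` is nonzero and reproduces the reduced density matrix of `Ψ` on `Reg` up to `ε`.

(B) Families. If such mixed states exist with `D₀ ≤ poly`, `1/η ≤ poly`, at a polynomially dense set
of sizes `m`, then for each region the bond dimension of the local approximations is polynomial in
the scale of convergence of the reduced density matrices; and if these converge at a polynomial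
rate, then the answer to Q2 for the family is positive.
-/

set_option autoImplicit false

open scoped BigOperators Matrix

noncomputable section

open Pool.Agent.Y738.PE (Tensor pepsX Close nrm PolyConv EffAll)
open Pool.Agent.TH235.PP Pool.Agent.Results.MP_953b23_mp.OverlapBoosting
  Pool.Agent.Results.MP_953b23_mp.ThermalCriterion
open Pool.Agent.Q204.LP (LowEnergySizes)

namespace Pool.Agent.Results.MP_0f69bf_mp.LowEnergyOneSize

theorem result :
    (∀ (d R : ℕ), 2 ≤ d → ∀ h : BoxOp d (R + 1), h.IsHermitian → ∀ Δ : ℝ, 0 < Δ →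
      ∀ Reg : Finset (ℤ × ℤ), ∃ C r : ℕ, 0 < r ∧
        ∀ ε : ℝ, 0 < ε → ε ≤ 1 → ∀ (m : ℕ) [NeZero m], (r : ℝ) / ε ≤ m →
        ∀ Ψ : (Site m → Fin d) → ℂ, normSq Ψ = 1 → IsGappedGround (ham h m) Δ Ψ →
        ∀ (a D₀ : ℕ) (X : (Site m → Fin a) → (Site m → Fin d) → ℂ), IsPurified D₀ X →
        0 < ∑ t, normSq (X t) → ∀ η : ℝ, 0 < η → η ≤ 1 →
        (η * ∑ t, normSq (X t) ≤ ∑ t, ‖ip Ψ (X t)‖ ^ 2 ∨
          ∑ t, (ip (X t) (ham h m *ᵥ X t)).re ≤
            (energy (ham h m) Ψ + Δ * (1 - η)) * ∑ t, normSq (X t)) →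
        ∃ (D : ℕ) (A : Tensor d D), (D : ℝ) ≤ (D₀ : ℝ) ^ 4 * ((m : ℝ) / η) ^ C ∧
          ∀ (L : ℕ) [NeZero L], m ^ 5 ≤ L →
            nrm (pepsX A L) ≠ 0 ∧ Close Reg Ψ (pepsX A L) ε) ∧
    (∀ (d R : ℕ), 2 ≤ d → ∀ (h : BoxOp d R) (Δ : ℝ) (Ψ : ∀ L : ℕ, (Site L → Fin d) → ℂ),
      GappedFamily h Δ Ψ → LowEnergySizes h Δ Ψ → ∀ Reg : Finset (ℤ × ℤ),
        (∃ K : ℕ, ∀ ε : ℝ, 0 < ε → ε ≤ 1 → ∀ n : ℕ, 1 / ε ≤ n →
          (∀ (L L' : ℕ) [NeZero L] [NeZero L'], n ≤ L → n ≤ L' → Close Reg (Ψ L) (Ψ L') ε) →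
          ∃ (D : ℕ) (A : Tensor d D), D ≤ K * n ^ K ∧
            ∀ (L : ℕ) [NeZero L], K * n ^ K ≤ L → nrm (pepsX A L) ≠ 0 ∧
              Close Reg (Ψ L) (pepsX A L) (2 * ε)) ∧
        (PolyConv Reg Ψ → EffAll Reg Ψ)) := by
  refine ⟨?_, ?_⟩
  · intro d R hd h hh Δ hΔ Reg
    exact Pool.Agent.Q204.LP.one_size d R hd h hh Δ hΔ Reg
  · intro d R hd h Δ Ψ hF hL Reg
    have h1 := Pool.Agent.Q204.LP.scale_of_sizes
      (Pool.Agent.Q204.LP.sizes_of_low hd hF hL Reg)
    exact ⟨h1, Pool.Agent.Q204.LP.eff_of_scale h1⟩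

end Pool.Agent.Results.MP_0f69bf_mp.LowEnergyOneSize
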