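import Pool.Agent.Q204.LP.Hyp
import Pool.Agent.Q204.TS.Loc

/-!
# Local approximation: one region suffices

Let `h` be a Hermitian interaction on the box of side `R + 1`, `Δ > 0`, `κ ‖h‖ < Δ`.

(A) One torus. Suppose `H_m` has a unique ground state `Ψ` with gap `Δ`, and some locally purified
mixed state of bond dimension `D₀` on the `m`-torus (tensors depending on the site) reproduces the
reduced density matrices of `Ψ` on the translates of the support of the interaction, and only these,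
up to `κ / m²`. Then for EVERY finite region `Reg` and every `ε ≥ r / m` there is ONE translation
invariant tensor of bond dimension at most `D₀⁴ m^C` whose PEPS vector on every torus of side
`L ≥ m⁵` is nonzero and reproduces the reduced density matrix of `Ψ` on `Reg` up to `ε`.

(B) Families. If such mixed states with `D₀ ≤ poly` exist at a polynomially dense set of sizes, then
for every region the bond dimension of the local approximations is polynomial in the scale of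
convergence of the reduced density matrices; if these converge at a polynomial rate, the conclusion
of Q2 holds on the region.
-/

set_option autoImplicit false

open scoped BigOperators Matrix Matrix.Norms.L2Operator

noncomputable section

open Pool.Agent.Y738.PE (Tensor pepsX Close nrm PolyConv EffAll)
open Pool.Agent.TH235.PP Pool.Agent.Results.MP_953b23_mp.OverlapBoosting
  Pool.Agent.Results.MP_953b23_mp.ThermalCriterion

namespace Pool.Agent.Results.MP_0f69bf_mp.OneRegionSuffices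

/-- The normalised reduced density matrices of the mixed state `X` on all translates of the `R × R`
box are within `δ`, in trace norm, of those of the unit vector `Ψ`. -/
def NearOnBoxes {d m a : ℕ} [NeZero m] (R : ℕ) (X : (Site m → Fin a) → (Site m → Fin d) → ℂ)
    (Ψ : (Site m → Fin d) → ℂ) (δ : ℝ) : Prop :=
  ∀ (u : Site m) (B : BoxOp d R), ‖B‖ ≤ 1 →
    ‖(∑ t, ip (X t) (term B u *ᵥ X t)) / ((∑ t, normSq (X t) : ℝ) : ℂ) -
      ip Ψ (term B u *ᵥ Ψ)‖ ≤ δ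

/-- For every `n` there are a size `m` between `n` and `c n^k` and a locally purified mixed state of
bond dimension at most `c n^k` on the torus of this size whose reduced density matrices on the
translates of the `R × R` box are within `κ / m²` of those of `Ψ m`. -/
def BoxSizes {d : ℕ} (R : ℕ) (κ : ℝ) (Ψ : ∀ L : ℕ, (Site L → Fin d) → ℂ) : Prop :=
  ∃ c k : ℕ, ∀ n : ℕ, 0 < n → ∃ (m : ℕ) (_ : NeZero m) (a D₀ : ℕ)
    (X : (Site m → Fin a) → (Site m → Fin d) → ℂ),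
    n ≤ m ∧ m ≤ c * n ^ k ∧ D₀ ≤ c * n ^ k ∧ IsPurified D₀ X ∧ 0 < ∑ t, normSq (X t) ∧
      NearOnBoxes R X (Ψ m) (κ / (m : ℝ) ^ 2)

theorem low_of_box {d R : ℕ} {h : BoxOp d R} {Δ κ : ℝ} {Ψ : ∀ L : ℕ, (Site L → Fin d) → ℂ}
    (hF : GappedFamily h Δ Ψ) (hκ : κ * ‖h‖ < Δ) (hB : BoxSizes R κ Ψ) :
    Pool.Agent.Q204.LP.LowEnergySizes h Δ Ψ := by
  have hΔ := hF.gap_pos
  obtain ⟨c, k, hB⟩ := hB
  set η : ℝ := 1 - κ * ‖h‖ / Δ with hη
  have hη0 : 0 < η := by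
    rw [hη, sub_pos, div_lt_one hΔ]
    exact hκ
  set q : ℕ := ⌈1 / η⌉₊ + 1 with hq
  have hqη : 1 / η ≤ q := by
    rw [hq]; push_cast
    linarith [Nat.le_ceil (1 / η)]
  have hq1 : 1 ≤ q := by omega
  refine ⟨c * q, k, ?_⟩
  intro n hn
  obtain ⟨m, hm, a, D₀, X, h1, h2, h3, h4, h5, h6⟩ := hB n hn
  have hcq : c * n ^ k ≤ c * q * n ^ k := Nat.mul_le_mul_right _ (Nat.le_mul_of_pos_right c hq1)
  refine ⟨m, hm, a, D₀, X, h1, h2.trans hcq, h3.trans hcq, h4, h5, ?_⟩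
  refine (Pool.Agent.Q204.TS.energy_of_local h (Ψ m) X h5 κ h6).trans ?_
  refine mul_le_mul_of_nonneg_right ?_ h5.le
  have h7 : κ * ‖h‖ = Δ * (1 - η) := by
    rw [hη]; field_simp; ring
  rw [h7]
  have hcn : 1 ≤ c * n ^ k := by
    have : 1 ≤ m := Nat.pos_of_ne_zero (NeZero.ne m)
    omega
  have h8 : 1 / (((c * q * n ^ k : ℕ)) : ℝ) ≤ η := by
    have e1 : (q : ℝ) ≤ ((c * q * n ^ k : ℕ) : ℝ) := by
      have : q ≤ c * q * n ^ k := by
        calc q = 1 * q := (one_mul q).symm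
          _ ≤ (c * n ^ k) * q := Nat.mul_le_mul_right _ hcn
          _ = c * q * n ^ k := by ring
      exact_mod_cast this
    have e2 : 0 < ((c * q * n ^ k : ℕ) : ℝ) := by
      have : (1 : ℝ) ≤ q := by exact_mod_cast hq1
      linarith
    rw [div_le_iff₀ e2]
    have e3 : 1 ≤ η * q := by
      rw [div_le_iff₀ hη0] at hqη
      linarith
    nlinarith
  have := mul_le_mul_of_nonneg_left h8 hΔ.le
  linarith

theorem result :
    (∀ (d R : ℕ), 2 ≤ d → ∀ h : BoxOp d (R + 1), h.IsHermitian → ∀ Δ κ : ℝ, 0 < Δ →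
      κ * ‖h‖ < Δ → ∀ Reg : Finset (ℤ × ℤ), ∃ C r : ℕ, 0 < r ∧
        ∀ ε : ℝ, 0 < ε → ε ≤ 1 → ∀ (m : ℕ) [NeZero m], (r : ℝ) / ε ≤ m →
        ∀ Ψ : (Site m → Fin d) → ℂ, normSq Ψ = 1 → IsGappedGround (ham h m) Δ Ψ →
        ∀ (a D₀ : ℕ) (X : (Site m → Fin a) → (Site m → Fin d) → ℂ), IsPurified D₀ X →
        0 < ∑ t, normSq (X t) → NearOnBoxes (R + 1) X Ψ (κ / (m : ℝ) ^ 2) →
        ∃ (D : ℕ) (A : Tensor d D), (D : ℝ) ≤ (D₀ : ℝ) ^ 4 * (m : ℝ) ^ C ∧
          ∀ (L : ℕ) [NeZero L], m ^ 5 ≤ L →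
            nrm (pepsX A L) ≠ 0 ∧ Close Reg Ψ (pepsX A L) ε) ∧
    (∀ (d R : ℕ), 2 ≤ d → ∀ (h : BoxOp d R) (Δ κ : ℝ) (Ψ : ∀ L : ℕ, (Site L → Fin d) → ℂ),
      GappedFamily h Δ Ψ → κ * ‖h‖ < Δ → BoxSizes R κ Ψ → ∀ Reg : Finset (ℤ × ℤ),
        (∃ K : ℕ, ∀ ε : ℝ, 0 < ε → ε ≤ 1 → ∀ n : ℕ, 1 / ε ≤ n →
          (∀ (L L' : ℕ) [NeZero L] [NeZero L'], n ≤ L → n ≤ L' → Close Reg (Ψ L) (Ψ L') ε) →
          ∃ (D : ℕ) (A : Tensor d D), D ≤ K * n ^ K ∧
            ∀ (L : ℕ) [NeZero L], K * n ^ K ≤ L → nrm (pepsX A L) ≠ 0 ∧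
              Close Reg (Ψ L) (pepsX A L) (2 * ε)) ∧
        (PolyConv Reg Ψ → EffAll Reg Ψ)) := by
  refine ⟨?_, ?_⟩
  · intro d R hd h hh Δ κ hΔ hκ Reg
    obtain ⟨C, r, hr, hone⟩ := Pool.Agent.Q204.LP.one_size d R hd h hh Δ hΔ Reg
    set η : ℝ := min 1 (1 - κ * ‖h‖ / Δ) with hη
    have hη0 : 0 < η := by
      rw [hη, lt_min_iff]
      exact ⟨one_pos, by rw [sub_pos, div_lt_one hΔ]; exact hκ⟩
    have hη1 : η ≤ 1 := min_le_left _ _
    refine ⟨2 * C, r + ⌈1 / η⌉₊, by omega, ?_⟩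
    intro ε hε hε1 m _ hm Ψ hΨ hg a D₀ X hX hX0 hnear
    have hm' : (r : ℝ) / ε ≤ m := by
      refine le_trans ?_ hm
      refine div_le_div_of_nonneg_right ?_ hε.le
      push_cast
      have : (0 : ℝ) ≤ (⌈1 / η⌉₊ : ℕ) := Nat.cast_nonneg _
      linarith
    have hmη : 1 / η ≤ m := by
      have e1 : (1 / η) ≤ ((r + ⌈1 / η⌉₊ : ℕ) : ℝ) := by
        push_cast
        have := Nat.le_ceil (1 / η)
        have hr0 : (0 : ℝ) ≤ r := Nat.cast_nonneg r
        linarith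
      have e2 : ((r + ⌈1 / η⌉₊ : ℕ) : ℝ) ≤ ((r + ⌈1 / η⌉₊ : ℕ) : ℝ) / ε := by
        rw [le_div_iff₀ hε]
        have : (0 : ℝ) ≤ ((r + ⌈1 / η⌉₊ : ℕ) : ℝ) := Nat.cast_nonneg _
        nlinarith
      exact (e1.trans e2).trans hm
    obtain ⟨D, A, hD, hA⟩ := hone ε hε hε1 m hm' Ψ hΨ hg a D₀ X hX hX0 η hη0 hη1 (Or.inr (by
      refine (Pool.Agent.Q204.TS.energy_of_local h Ψ X hX0 κ hnear).trans ?_
      refine mul_le_mul_of_nonneg_right ?_ hX0.le
      have h7 : κ * ‖h‖ = Δ * (1 - (1 - κ * ‖h‖ / Δ)) := by field_simp; ring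
      rw [h7]
      have h8 : η ≤ 1 - κ * ‖h‖ / Δ := min_le_right _ _
      have := mul_le_mul_of_nonneg_left h8 hΔ.le
      linarith))
    refine ⟨D, A, hD.trans (mul_le_mul_of_nonneg_left ?_ (by positivity)), hA⟩
    have e1 : (m : ℝ) / η ≤ (m : ℝ) ^ 2 := by
      rw [div_eq_mul_one_div, sq]
      exact mul_le_mul_of_nonneg_left hmη (Nat.cast_nonneg _)
    calc ((m : ℝ) / η) ^ C ≤ ((m : ℝ) ^ 2) ^ C := pow_le_pow_left₀ (by positivity) e1 C
      _ = (m : ℝ) ^ (2 * C) := by rw [← pow_mul]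
  · intro d R hd h Δ κ Ψ hF hκ hB Reg
    have h1 := Pool.Agent.Q204.LP.scale_of_sizes
      (Pool.Agent.Q204.LP.sizes_of_low hd hF (low_of_box hF hκ hB) Reg)
    exact ⟨h1, Pool.Agent.Q204.LP.eff_of_scale h1⟩

end Pool.Agent.Results.MP_0f69bf_mp.OneRegionSuffices
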