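import Pool.Agent.Q204.LP.Hyp

/-!
# Local approximation with polynomial bond dimension from the density of states

Let `h` be a Hermitian interaction on a box, `Δ > 0`, `Reg ⊂ ℤ²` a finite region.

(A) One torus. Suppose `H_m` has a unique ground state `Ψ` with gap `Δ`, let `β ≥ 0` and
`Z = Tr exp (-β (H_m - E₀))`. If `m ≥ r / ε`, there is ONE translation invariant tensor of bond
dimension at most `(e^β m Z)^C` whose PEPS vector on every torus of side `L ≥ m⁵` is nonzero and
reproduces the reduced density matrix of `Ψ` on `Reg` up to `ε`.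

(B) Gapped families with few low-lying states: if for all large `L` and all `j` the Hamiltonian
`H_L` has at most `L^{C (j + 1)}` eigenvalues up to `E₀ + j` (or only the partition functions are
polynomially bounded at some `β = O(log m)` for a polynomially dense set of sizes `m`), then for each
region the bond dimension of the local approximations is polynomial in the scale of convergence of
the reduced density matrices; if these converge at a polynomial rate, the answer to Q2 for the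
family is positive.
-/

set_option autoImplicit false

open scoped BigOperators Matrix

noncomputable section

open Pool.Agent.Y738.PE (Tensor pepsX Close nrm PolyConv EffAll)
open Pool.Agent.TH235.PP Pool.Agent.Results.MP_953b23_mp.OverlapBoosting
  Pool.Agent.Results.MP_953b23_mp.ThermalCriterion
open Pool.Agent.Q204.LP (ThermalSizes)

namespace Pool.Agent.Results.MP_0f69bf_mp.ThermalLocal

theorem result :
    (∀ (d R : ℕ), 2 ≤ d → ∀ h : BoxOp d (R + 1), h.IsHermitian → ∀ Δ : ℝ, 0 < Δ →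
      ∀ Reg : Finset (ℤ × ℤ), ∃ C r : ℕ, 0 < r ∧
        ∀ ε : ℝ, 0 < ε → ε ≤ 1 → ∀ (m : ℕ) [NeZero m], (r : ℝ) / ε ≤ m →
        ∀ Ψ : (Site m → Fin d) → ℂ, normSq Ψ = 1 → IsGappedGround (ham h m) Δ Ψ →
        ∀ (hH : (ham h m).IsHermitian) (β : ℝ), 0 ≤ β →
        ∃ (D : ℕ) (A : Tensor d D),
          (D : ℝ) ≤ (Real.exp β * m * partition hH (energy (ham h m) Ψ) β) ^ C ∧
          ∀ (L : ℕ) [NeZero L], m ^ 5 ≤ L →
            nrm (pepsX A L) ≠ 0 ∧ Close Reg Ψ (pepsX A L) ε) ∧
    (∀ (d R : ℕ), 2 ≤ d → ∀ (h : BoxOp d R) (Δ : ℝ) (Ψ : ∀ L : ℕ, (Site L → Fin d) → ℂ),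
      GappedFamily h Δ Ψ → ((∃ C : ℝ, FewStates h Ψ 1 C) ∨ ThermalSizes h Ψ) →
      ∀ Reg : Finset (ℤ × ℤ),
        (∃ K : ℕ, ∀ ε : ℝ, 0 < ε → ε ≤ 1 → ∀ n : ℕ, 1 / ε ≤ n →
          (∀ (L L' : ℕ) [NeZero L] [NeZero L'], n ≤ L → n ≤ L' → Close Reg (Ψ L) (Ψ L') ε) →
          ∃ (D : ℕ) (A : Tensor d D), D ≤ K * n ^ K ∧
            ∀ (L : ℕ) [NeZero L], K * n ^ K ≤ L → nrm (pepsX A L) ≠ 0 ∧
              Close Reg (Ψ L) (pepsX A L) (2 * ε)) ∧
        (PolyConv Reg Ψ → EffAll Reg Ψ)) := by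
  refine ⟨?_, ?_⟩
  · intro d R hd h hh Δ hΔ Reg
    exact Pool.Agent.Q204.LP.one_size_thermal d R hd h hh Δ hΔ Reg
  · intro d R hd h Δ Ψ hF hL Reg
    have hT : ThermalSizes h Ψ := by
      rcases hL with ⟨C, hC⟩ | hL
      · exact Pool.Agent.Q204.LP.thermal_of_few hF hC
      · exact hL
    have h1 := Pool.Agent.Q204.LP.scale_of_sizes
      (Pool.Agent.Q204.LP.sizes_of_thermal hd hF hT Reg)
    exact ⟨h1, Pool.Agent.Q204.LP.eff_of_scale h1⟩

end Pool.Agent.Results.MP_0f69bf_mp.ThermalLocal
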